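import Pool.Agent.H121Z.RoomB

namespace Pool.Agent.Results.MP_b14753_co.AllOrders

open Pool.Agent.H121Z.Room

/-- For odd `n`, there is no patterned Room square of side `n` exactly when `n ∈ {3, 5, 9}`. -/
theorem result (n : ℕ) (hn : Odd n) :
    (¬ ∃ R : Arr n, IsPatterned R) ↔ (n = 3 ∨ n = 5 ∨ n = 9) := by
  obtain ⟨m, rfl⟩ := hn
  constructor
  · intro h
    by_contra hc
    exact h (exists_patterned m (by omega) (by omega) (by omega))
  · rintro h ⟨R, hR⟩
    have : m = 1 ∨ m = 2 ∨ m = 4 := by omega
    rcases this with rfl | rfl | rfl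
    · exact no3 R hR
    · exact no5 R hR
    · exact no9 R hR

end Pool.Agent.Results.MP_b14753_co.AllOrders
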